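import Mathlib
import Pool.Agent.Helper696_RF.Pur

/-!
# Blow-up limits of Ricci flows with pure curvature and non-negative isotropic curvature

The curvature tensor evolves by the usual reaction-diffusion equation (`Helper696_RF.evol`), the maximum
principle for the curvature tensor on closed manifolds is `Helper696_RF.maxp`, non-negative isotropic
curvature is preserved (`Helper696_RF.wpic_preserved`), and the pinching estimate is `Helper696_RF.pure_pinch`.
It uses the family of functionals `K_ac + K_bc + α (Ric_aa + Ric_bb) + 2 γ scal` of orthonormal triples and, for pure
curvature tensors, a comparison of an arbitrary orthonormal triple with the triples of the frame that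
diagonalises the curvature operator (`Helper696_RF.hull3_le`, by stochastic domination of determinantal measures).
-/

set_option autoImplicit false

open scoped ContDiff Manifold Topology Matrix
open Set Filter

namespace Pool.Agent.Results.MP_3a9764_gt.PureBlowUp

open Pool.Agent.QTot Pool.Agent.H858R2 Pool.Agent.Helper696_RF

/-- Let `n ≥ 5`, let `M` be a compact `n`-manifold and `g t`, `t ∈ [0, T)`, a Ricci flow on `M` such that `g 0` has
non-negative isotropic curvature and such that the curvature is pure at each point and time (the curvature
operator is diagonal in the basis `e_i ∧ e_j` of bivectors for some orthonormal frame `e_1, …, e_n`). Then every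
blow-up limit of the flow at time `T` has non-negative curvature operator. -/
theorem result {n : ℕ} (hn : 5 ≤ n) {M : Type} [TopologicalSpace M] [ChartedSpace (En n) M]
    [IsManifold (𝓡 n) ∞ M] [CompactSpace M] {T : ℝ} {g : ℝ → Metric n M} (hg : IsRicciFlow T g)
    (h0 : WPIC (g 0)) (hpure : ∀ t ∈ Ico 0 T, PureCurv (g t))
    {N : Type} [TopologicalSpace N] [ChartedSpace (En n) N] [IsManifold (𝓡 n) ∞ N]
    {I : Set ℝ} {h : ℝ → Metric n N} {p : N} (hb : IsBlowUpLimit T g I h p) :
    ∀ s ∈ I, NonnegOp (h s) :=
  pure_blow hn hg h0 hpure hb

end Pool.Agent.Results.MP_3a9764_gt.PureBlowUp
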